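import Pool.Agent.VO5.End

/-!
No block `1 / (a + 1) + ... + 1 / b` of the harmonic series with `55 ≤ a` is within `1 / (100 (2 a + 1) ^ 4)` of `1` (helper5).
-/

namespace Pool.Agent.VO6

open Pool.Agent.P30.UnitInterval Pool.Agent.UCF Pool.Agent.VO5

/-- the block is near to `1` -/
def Near (a b : ℕ) : Prop := |((hs a b : ℚ) : ℝ) - 1| ≤ 1 / (100 * (2 * (a : ℝ) + 1) ^ 4)

theorem level_one {a b : ℕ} (h : Near a b) (ha : 55 ≤ a) (hab : a < b) :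
    2 * (2 * (a : ℝ) + 1) ≤ 2 * (b : ℝ) + 1 ∧
    (19 / 100 : ℝ) ≤ ((b - a : ℕ) : ℝ) * |((a + b + 1 : ℕ) : ℝ) - hh 1 * ((b - a : ℕ) : ℝ)| ∧
    ((b - a : ℕ) : ℝ) * |((a + b + 1 : ℕ) : ℝ) - hh 1 * ((b - a : ℕ) : ℝ)| ≤ 21 / 100 := by
  have hG := UIL.Gf_sum a b hab.le
  unfold UIL.Gf at hG
  unfold Near at h
  obtain ⟨q, hq⟩ : ∃ q : ℝ, q = 2 * (a : ℝ) + 1 := ⟨_, rfl⟩
  obtain ⟨p, hp⟩ : ∃ p : ℝ, p = 2 * (b : ℝ) + 1 := ⟨_, rfl⟩
  rw [← hq, ← hp] at hG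
  rw [← hq] at h
  have hqa : 111 ≤ q := by
    have : (55 : ℝ) ≤ a := by exact_mod_cast ha
    rw [hq]; linarith
  have hpq : q < p := by
    have : (a : ℝ) < b := by exact_mod_cast hab
    rw [hq, hp]; linarith
  have hq0 : 0 < q := by linarith
  have hp0 : 0 < p := by linarith
  have hnear : |((hs a b : ℚ) : ℝ) - 1| ≤ 1 / 100 * (1 / q ^ 4) := by
    refine h.trans (le_of_eq ?_)
    field_simp
  -- the exponent
  obtain ⟨η, hη⟩ : ∃ η : ℝ, η = Real.log p - Real.log q - 1 := ⟨_, rfl⟩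
  obtain ⟨Z, hZ⟩ : ∃ Z : ℝ, Z = q ^ 2 * η := ⟨_, rfl⟩
  obtain ⟨r, hr⟩ : ∃ r : ℝ, r = p / q := ⟨_, rfl⟩
  obtain ⟨w, hw⟩ : ∃ w : ℝ, w = 1 / q ^ 2 := ⟨_, rfl⟩
  have hw0 : 0 < w := by rw [hw]; positivity
  have hw1 : w ≤ 1 / 12321 := by
    rw [hw]
    apply one_div_le_one_div_of_le (by norm_num)
    nlinarith
  have hr1 : 1 < r := by rw [hr, one_lt_div hq0]; exact hpq
  have hr0 : 0 < r := by linarith
  have hpr : p = q * r := by rw [hr]; field_simp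
  have e1 : 1 / (6 * p ^ 2) = w / 6 * (1 / r ^ 2) := by rw [hpr, hw]; field_simp
  have e2 : 1 / (6 * q ^ 2) = w / 6 := by rw [hw]; field_simp
  have e3 : 1 / q ^ 4 = w ^ 2 := by rw [hw]; field_simp
  have e4 : 0 ≤ 1 / p ^ 4 := by positivity
  have hηZ : η = w * Z := by rw [hZ, hw]; field_simp
  rw [abs_le, e1, e2] at hG
  obtain ⟨g1, g2⟩ := hG
  rw [abs_le] at hnear
  obtain ⟨n1, n2⟩ := hnear
  rw [e3] at g1 g2 n1 n2
  have hw2 : 0 ≤ w ^ 2 := by positivity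
  have zu : w * Z ≤ w * ((1 - 1 / r ^ 2) / 6 + 5 * w) := by
    rw [← hηZ, hη]
    have : w * ((1 - 1 / r ^ 2) / 6 + 5 * w) = w / 6 - w / 6 * (1 / r ^ 2) + 5 * w ^ 2 := by ring
    rw [this]
    linarith
  have zl : w * ((1 - 1 / r ^ 2) / 6 - 5 * w) ≤ w * Z := by
    rw [← hηZ, hη]
    have : w * ((1 - 1 / r ^ 2) / 6 - 5 * w) = w / 6 - w / 6 * (1 / r ^ 2) - 5 * w ^ 2 := by ring
    rw [this]
    linarith
  have zu' := le_of_mul_le_mul_left zu hw0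
  have zl' := le_of_mul_le_mul_left zl hw0
  have hir : 0 < 1 / r ^ 2 := by positivity
  have hir1 : 1 / r ^ 2 ≤ 1 := by
    rw [div_le_one (by positivity)]
    nlinarith
  have z1 : Z ≤ 168 / 1000 := by linarith
  have z2 : -(1 / 1000) ≤ Z := by linarith
  have wz1 := mul_le_mul_of_nonneg_left z1 hw0.le
  have wz2 := mul_le_mul_of_nonneg_left z2 hw0.le
  have η1 : η ≤ 1 / 50000 := by
    rw [hηZ]; linarith
  have η2 : -(1 / 50000) ≤ η := by
    rw [hηZ]; linarith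
  -- the ratio
  have hre : r = Real.exp 1 * Real.exp η := by
    rw [← Real.exp_add, hη]
    have : 1 + (Real.log p - Real.log q - 1) = Real.log (p / q) := by
      rw [Real.log_div hp0.ne' hq0.ne']; ring
    rw [this, Real.exp_log (by positivity), hr]
  have ex1 := Real.add_one_le_exp η
  have ex2 := Real.abs_exp_sub_one_sub_id_le (x := η) (by rw [abs_le]; constructor <;> linarith)
  have ex3 := (abs_le.1 ex2).2
  have he1 := Real.exp_one_gt_d9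
  have he2 := Real.exp_one_lt_d9
  obtain ⟨e, he⟩ : ∃ e : ℝ, e = Real.exp 1 := ⟨_, rfl⟩
  rw [← he] at he1 he2 hre
  have hη2 : η ^ 2 ≤ 1 / 50000 := by
    have h1 : |η| ≤ 1 / 50000 := abs_le.2 ⟨by linarith, η1⟩
    have h2 : |η| ^ 2 ≤ (1 / 50000) ^ 2 := pow_le_pow_left₀ (abs_nonneg _) h1 2
    rw [sq_abs] at h2
    norm_num at h2 ⊢
    linarith
  have he0 : 0 < e := by linarith
  have ex4 : 49999 / 50000 ≤ Real.exp η := by linarith
  have ex5 : Real.exp η ≤ 25001 / 25000 := by linarith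
  have r1 : 2718 / 1000 ≤ r := by
    rw [hre]
    have h1 := mul_le_mul_of_nonneg_left ex4 he0.le
    linarith
  have r2 : r ≤ 27185 / 10000 := by
    rw [hre]
    have h1 := mul_le_mul_of_nonneg_left ex5 he0.le
    linarith
  have rr1 : (2718 / 1000 : ℝ) ^ 2 ≤ r ^ 2 := pow_le_pow_left₀ (by norm_num) r1 2
  have rr2 : r ^ 2 ≤ (27185 / 10000 : ℝ) ^ 2 := pow_le_pow_left₀ hr0.le r2 2
  norm_num at rr1 rr2
  have s1 : 1 / r ^ 2 ≤ 1354 / 10000 := by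
    rw [div_le_iff₀ (by positivity)]; linarith
  have s2 : 1353 / 10000 ≤ 1 / r ^ 2 := by
    rw [le_div_iff₀ (by positivity)]; linarith
  have z3 : Z ≤ 1446 / 10000 := by linarith
  have z4 : 1436 / 10000 ≤ Z := by linarith
  have hZ0 : 0 < Z := by linarith
  have hη0 : 0 < η := by rw [hηZ]; positivity
  -- the product
  obtain ⟨x, hx⟩ : ∃ x : ℝ, x = p - e * q := ⟨_, rfl⟩
  have x1 : e * q * η ≤ x := by
    rw [hx, hpr, hre]
    have := mul_le_mul_of_nonneg_left ex1 (mul_pos he0 hq0).le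
    linarith
  have x2 : x ≤ e * q * (η + η ^ 2) := by
    rw [hx, hpr, hre]
    have := mul_le_mul_of_nonneg_left ex3 (mul_pos he0 hq0).le
    linarith
  have hx0 : 0 < x := lt_of_lt_of_le (by positivity) x1
  have qx1 : e * Z ≤ q * x := by
    have := mul_le_mul_of_nonneg_left x1 hq0.le
    rw [hZ]; linarith
  have qx2 : q * x ≤ e * (Z + Z / 10000) := by
    have := mul_le_mul_of_nonneg_left x2 hq0.le
    have h2 : q * (e * q * (η + η ^ 2)) = e * (Z + Z * η) := by rw [hZ]; ring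
    rw [h2] at this
    refine this.trans ?_
    have h3 : Z * η ≤ Z / 10000 := by
      have := mul_le_mul_of_nonneg_left η1 hZ0.le
      linarith
    exact mul_le_mul_of_nonneg_left (by linarith) he0.le
  have hes : 0 < Real.exp (1 : ℕ) - 1 := exp_pos_sub (Or.inl rfl)
  have hV : (((b - a : ℕ) : ℝ)) = (p - q) / 2 := by
    rw [Nat.cast_sub hab.le, hp, hq]; ring
  have hU : ((a + b + 1 : ℕ) : ℝ) = (p + q) / 2 := by
    rw [hp, hq]; push_cast; ring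
  have he' : Real.exp ((1 : ℕ) : ℝ) = e := by rw [he]; norm_num
  rw [he'] at hes
  have hE : ((a + b + 1 : ℕ) : ℝ) - hh 1 * ((b - a : ℕ) : ℝ) = -x / (e - 1) := by
    rw [hU, hV, hx]
    unfold hh
    rw [he']
    field_simp
    ring
  have hk : ((b - a : ℕ) : ℝ) * |((a + b + 1 : ℕ) : ℝ) - hh 1 * ((b - a : ℕ) : ℝ)| = q * x / 2 + x ^ 2 / (2 * (e - 1)) := by
    rw [hE, hV, abs_div, abs_neg, abs_of_pos hes, abs_of_pos hx0]
    have : p = e * q + x := by rw [hx]; ring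
    rw [this]
    field_simp
    ring
  rw [hk]
  have hx3 : 0 ≤ x ^ 2 / (2 * (e - 1)) := by positivity
  have eZ1 : 2718 / 1000 * (1436 / 10000) ≤ e * Z := mul_le_mul (by linarith) z4 (by norm_num) he0.le
  have eZ2 : e * (Z + Z / 10000) ≤ 2719 / 1000 * (1447 / 10000) := mul_le_mul (by linarith) (by linarith) (by linarith) (by norm_num)
  have hx4 : x ^ 2 / (2 * (e - 1)) ≤ 1 / 1000 := by
    rw [div_le_iff₀ (by linarith)]
    have h1 : 111 * x ≤ q * x := mul_le_mul_of_nonneg_right hqa hx0.le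
    have h2 : x ≤ 1 / 100 := by norm_num at eZ2; linarith
    have h3 : x ^ 2 ≤ (1 / 100) ^ 2 := pow_le_pow_left₀ hx0.le h2 2
    norm_num at h3
    linarith
  norm_num at eZ1 eZ2
  refine ⟨?_, ?_, ?_⟩
  · rw [← hq, ← hp, hpr]
    have := mul_le_mul_of_nonneg_left r1 hq0.le
    linarith
  · linarith
  · linarith

theorem sum_two' {a b : ℕ} (ha : 9 ≤ a) (hab : a ≤ b) :
    -(1 / 5) * (1 / (2 * (a : ℝ) + 1) ^ 4 - 1 / (2 * (b : ℝ) + 1) ^ 4) ≤
      Real.log (3 * (b : ℝ) ^ 2 + 3 * b + 1) - Real.log (3 * (a : ℝ) ^ 2 + 3 * a + 1) - 2 * ((hs a b : ℚ) : ℝ) ∧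
    Real.log (3 * (b : ℝ) ^ 2 + 3 * b + 1) - Real.log (3 * (a : ℝ) ^ 2 + 3 * a + 1) - 2 * ((hs a b : ℚ) : ℝ) ≤
      -(3 / 20) * (1 / (2 * (a : ℝ) + 1) ^ 4 - 1 / (2 * (b : ℝ) + 1) ^ 4) := by
  induction b, hab using Nat.le_induction with
  | base =>
    have : hs a a = 0 := by simp [hs]
    rw [this]
    simp
  | succ b hab ih =>
    have h1 : hs a (b + 1) = hs a b + 1 / ((b : ℚ) + 1) := by
      rw [← hs_add hab (Nat.le_succ b)]
      have : hs b (b + 1) = 1 / ((b : ℚ) + 1) := by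
        unfold hs
        rw [Nat.Ioc_succ_singleton, Finset.sum_singleton]
        push_cast
        rfl
      rw [this]
    rw [h1]
    have hb9 : (9 : ℝ) ≤ b := by exact_mod_cast le_trans ha hab
    obtain ⟨s1, s2⟩ := step (x := (b : ℝ) + 1) (by linarith)
    have e1 : 3 * ((b : ℝ) + 1) ^ 2 - 3 * ((b : ℝ) + 1) + 1 = 3 * (b : ℝ) ^ 2 + 3 * b + 1 := by ring
    have e2 : 2 * ((b : ℝ) + 1) - 1 = 2 * (b : ℝ) + 1 := by ring
    rw [e1, e2] at s1 s2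
    have e3 : 2 / ((b : ℝ) + 1) = 2 * (1 / ((b : ℝ) + 1)) := by ring
    rw [e3] at s1 s2
    have h2 : 1 / (2 * ((b : ℝ) + 1) + 1) ^ 4 ≤ 1 / (2 * (b : ℝ) + 1) ^ 4 := by
      apply one_div_le_one_div_of_le (by positivity)
      exact pow_le_pow_left₀ (by positivity) (by linarith) 4
    push_cast
    obtain ⟨i1, i2⟩ := ih
    constructor <;> linarith

theorem level_two {a b k : ℕ} (h : Near a b) (ha : 55 ≤ a) (hab : a < b)
    (hk : (a + b + 1) * (b - a) = 2 * k) :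
    ((3 * k : ℕ) : ℝ) * |((3 * a ^ 2 + 3 * a + 1 + 3 * k : ℕ) : ℝ) - hh 2 * ((3 * k : ℕ) : ℝ)| ≤ 46 / 100 := by
  obtain ⟨hpq2, -, -⟩ := level_one h ha hab
  obtain ⟨t1, t2⟩ := sum_two' (by omega : 9 ≤ a) hab.le
  unfold Near at h
  obtain ⟨x, hx⟩ : ∃ x : ℝ, x = 3 * (b : ℝ) ^ 2 + 3 * b + 1 := ⟨_, rfl⟩
  obtain ⟨y, hy⟩ : ∃ y : ℝ, y = 3 * (a : ℝ) ^ 2 + 3 * a + 1 := ⟨_, rfl⟩
  obtain ⟨q, hq⟩ : ∃ q : ℝ, q = 2 * (a : ℝ) + 1 := ⟨_, rfl⟩
  obtain ⟨p, hp⟩ : ∃ p : ℝ, p = 2 * (b : ℝ) + 1 := ⟨_, rfl⟩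
  have haR : (55 : ℝ) ≤ a := by exact_mod_cast ha
  have habR : (a : ℝ) < b := by exact_mod_cast hab
  have hq111 : 111 ≤ q := by rw [hq]; linarith
  have hq0 : 0 < q := by linarith
  have hp0 : 0 < p := by
    have := Nat.cast_nonneg (α := ℝ) b
    rw [hp]; linarith
  have hx0 : 0 < x := by rw [hx]; positivity
  have hy0 : 0 < y := by rw [hy]; positivity
  rw [← hx, ← hy, ← hq, ← hp] at t1 t2
  rw [← hq] at h
  rw [← hq, ← hp] at hpq2
  have hnear : |((hs a b : ℚ) : ℝ) - 1| ≤ 1 / 100 * (1 / q ^ 4) := by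
    refine h.trans (le_of_eq ?_)
    field_simp
  rw [abs_le] at hnear
  obtain ⟨n1, n2⟩ := hnear
  have hq5 : 0 < 1 / q ^ 4 := by positivity
  have hp5 : 0 < 1 / p ^ 4 := by positivity
  have hp6 : 1 / p ^ 4 ≤ 1 / 16 * (1 / q ^ 4) := by
    have h1 : (2 * q) ^ 4 ≤ p ^ 4 := pow_le_pow_left₀ (by positivity) hpq2 4
    have h2 : 1 / p ^ 4 ≤ 1 / (2 * q) ^ 4 := one_div_le_one_div_of_le (by positivity) h1
    refine h2.trans (le_of_eq ?_)
    field_simp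
    norm_num
  obtain ⟨z, hz⟩ : ∃ z : ℝ, z = 2 - (Real.log x - Real.log y) := ⟨_, rfl⟩
  have z0 : 0 ≤ z := by rw [hz]; linarith
  have z1 : z ≤ 11 / 50 * (1 / q ^ 4) := by
    rw [hz]; linarith
  -- the ratio
  obtain ⟨E, hE⟩ : ∃ E : ℝ, E = Real.exp 2 := ⟨_, rfl⟩
  have hEe : E = Real.exp 1 ^ 2 := by rw [hE, ← Real.exp_nat_mul]; norm_num
  have he1 := Real.exp_one_gt_d9
  have he2 := Real.exp_one_lt_d9
  have E1 : 7 ≤ E := by rw [hEe]; nlinarith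
  have E2 : E ≤ 739 / 100 := by rw [hEe]; nlinarith
  have hxe : x = y * (E * Real.exp (-z)) := by
    rw [hE, ← Real.exp_add]
    have : 2 + -z = Real.log (x / y) := by
      rw [hz, Real.log_div hx0.ne' hy0.ne']; ring
    rw [this, Real.exp_log (by positivity)]
    field_simp
  have ez1 : 1 - z ≤ Real.exp (-z) := by
    have := Real.add_one_le_exp (-z)
    linarith
  have ez2 : Real.exp (-z) ≤ 1 := Real.exp_le_one_iff.2 (by linarith)
  have hyE : 0 < y * E := by positivity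
  have w1 : x ≤ E * y := by
    rw [hxe]
    have := mul_le_mul_of_nonneg_left ez2 hyE.le
    linarith
  have w2 : E * y - x ≤ E * y * z := by
    rw [hxe]
    have := mul_le_mul_of_nonneg_left ez1 hyE.le
    linarith
  have w3 : y ≤ x := by
    rw [hx, hy]; nlinarith
  have hY : ((3 * k : ℕ) : ℝ) = (x - y) / 2 := by
    have e1 : (((a + b + 1) * (b - a) : ℕ) : ℝ) = ((2 * k : ℕ) : ℝ) := by rw [hk]
    rw [Nat.cast_mul, Nat.cast_sub hab.le] at e1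
    push_cast at e1 ⊢
    rw [hx, hy]
    linarith
  have hX : ((3 * a ^ 2 + 3 * a + 1 + 3 * k : ℕ) : ℝ) = (x + y) / 2 := by
    have : ((3 * a ^ 2 + 3 * a + 1 + 3 * k : ℕ) : ℝ) = (3 * (a : ℝ) ^ 2 + 3 * a + 1) + ((3 * k : ℕ) : ℝ) := by push_cast; ring
    rw [this, hY, ← hy]; ring
  have hE' : Real.exp ((2 : ℕ) : ℝ) = E := by rw [hE]; norm_num
  have hdiff : ((3 * a ^ 2 + 3 * a + 1 + 3 * k : ℕ) : ℝ) - hh 2 * ((3 * k : ℕ) : ℝ) = (E * y - x) / (E - 1) := by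
    rw [hX, hY]
    unfold hh
    rw [hE']
    have : E - 1 ≠ 0 := by linarith
    field_simp
    ring
  have hE1 : 0 < E - 1 := by linarith
  rw [hdiff, hY, abs_of_nonneg (div_nonneg (by linarith) hE1.le)]
  have k1 : (x - y) / 2 * ((E * y - x) / (E - 1)) ≤ E * y ^ 2 * z / 2 := by
    have a1 : (x - y) * (E * y - x) ≤ ((E - 1) * y) * (E * y * z) :=
      mul_le_mul (by linarith) w2 (by linarith) (by positivity)
    have a2 : (x - y) / 2 * ((E * y - x) / (E - 1)) = (x - y) * (E * y - x) / (2 * (E - 1)) := by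
      field_simp
    rw [a2, div_le_iff₀ (by positivity)]
    linarith
  refine k1.trans ?_
  have y1 : y ≤ 7501 / 10000 * q ^ 2 := by
    have : y = (3 * q ^ 2 + 1) / 4 := by rw [hy, hq]; ring
    rw [this]
    nlinarith
  have y2 : y ^ 2 ≤ (7501 / 10000 * q ^ 2) ^ 2 := pow_le_pow_left₀ hy0.le y1 2
  have y3 : y ^ 2 * z ≤ (7501 / 10000 * q ^ 2) ^ 2 * (11 / 50 * (1 / q ^ 4)) := mul_le_mul y2 z1 z0 (by positivity)
  have y4 : (7501 / 10000 * q ^ 2) ^ 2 * (11 / 50 * (1 / q ^ 4)) = (7501 / 10000) ^ 2 * (11 / 50) := by field_simp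
  rw [y4] at y3
  have y5 : 0 ≤ y ^ 2 * z := by positivity
  have y6 : E * (y ^ 2 * z) ≤ 739 / 100 * ((7501 / 10000) ^ 2 * (11 / 50)) := mul_le_mul E2 y3 y5 (by norm_num)
  norm_num at y6
  linarith

theorem no_large {a b : ℕ} (h : Near a b) (ha : 55 ≤ a) (hab : a < b) : False := by
  obtain ⟨k0, hk0⟩ : ∃ k0, (a + b + 1) * (b - a) = 2 * k0 := by
    obtain ⟨c, rfl⟩ : ∃ c, b = a + c := ⟨b - a, by omega⟩
    have e : a + (a + c) + 1 = 2 * a + (c + 1) := by ring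
    have e2 : a + c - a = c := by omega
    rw [e, e2]
    rcases Nat.even_or_odd' c with ⟨t, rfl | rfl⟩
    · exact ⟨(2 * a + (2 * t + 1)) * t, by ring⟩
    · exact ⟨(a + t + 1) * (2 * t + 1), by ring⟩
  have hk1 : 1 ≤ k0 := by
    have : 0 < (a + b + 1) * (b - a) := Nat.mul_pos (by omega) (by omega)
    omega
  obtain ⟨-, l1, l2⟩ := level_one h ha hab
  have l3 := level_two h ha hab hk0
  obtain ⟨k, d, hd, dU, dV, dl, du⟩ := legendre (s := 1) (Or.inl rfl) (U := a + b + 1) (V := b - a) (by omega)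
    (by norm_num at l2 ⊢; linarith)
  obtain ⟨j, d', hd', dX, dY, dl', du'⟩ := legendre (s := 2) (Or.inr rfl) (U := 3 * a ^ 2 + 3 * a + 1 + 3 * k0) (V := 3 * k0)
    (by omega) (by norm_num at l3 ⊢; linarith)
  have q1 : (quot 1 (k + 1) : ℝ) = 4 * k + 6 := by
    have : quot 1 (k + 1) = 4 * k + 6 := by unfold quot; omega
    rw [this]; push_cast; ring
  have q2 : (quot 2 (j + 1) : ℝ) = 2 * j + 3 := by
    have : quot 2 (j + 1) = 2 * j + 3 := by unfold quot; omega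
    rw [this]; push_cast; ring
  rw [q1] at dl du
  rw [q2] at du'
  have hkR : (0 : ℝ) ≤ k := Nat.cast_nonneg k
  have hjR : (0 : ℝ) ≤ j := Nat.cast_nonneg j
  have b1 : 19 / 100 * (4 * (k : ℝ) + 6) ≤ (d : ℝ) ^ 2 := by
    refine le_trans ?_ dl
    exact mul_le_mul_of_nonneg_right l1 (by positivity)
  have b2 : (d : ℝ) ^ 2 ≤ 21 / 100 * (4 * (k : ℝ) + 7) := by
    refine le_trans du ?_
    have := mul_le_mul_of_nonneg_right l2 (by positivity : 0 ≤ 4 * (k : ℝ) + 6 + 1)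
    linarith
  have b3 : (d' : ℝ) ^ 2 ≤ 46 / 100 * (2 * (j : ℝ) + 4) := by
    refine le_trans du' ?_
    have := mul_le_mul_of_nonneg_right l3 (by positivity : 0 ≤ 2 * (j : ℝ) + 3 + 1)
    linarith
  -- small `k`
  have hk3 : 4 ≤ k := by
    by_contra hc
    push Not at hc
    have n1 : 19 * (4 * k + 6) ≤ 100 * d ^ 2 := by
      have : (19 : ℝ) * (4 * k + 6) ≤ 100 * (d : ℝ) ^ 2 := by linarith
      exact_mod_cast this
    have n2 : 100 * d ^ 2 ≤ 21 * (4 * k + 7) := by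
      have : 100 * (d : ℝ) ^ 2 ≤ 21 * (4 * k + 7) := by linarith
      exact_mod_cast this
    have hd2 : d < 2 := by
      by_contra hc2
      push Not at hc2
      have : 2 * 2 ≤ d * d := Nat.mul_le_mul hc2 hc2
      nlinarith
    have : d = 1 := by omega
    subst this
    omega
  -- the equation of the sizes
  obtain ⟨Q, hQ⟩ : ∃ Q : ℝ, Q = ((conv 1 (k + 1)).2 : ℝ) := ⟨_, rfl⟩
  obtain ⟨P, hP⟩ : ∃ P : ℝ, P = ((conv 1 (k + 1)).1 : ℝ) := ⟨_, rfl⟩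
  obtain ⟨R, hR⟩ : ∃ R : ℝ, R = ((conv 2 (2 * k + 2)).2 : ℝ) := ⟨_, rfl⟩
  obtain ⟨T, hT⟩ : ∃ T : ℝ, T = ((conv 2 (j + 1)).2 : ℝ) := ⟨_, rfl⟩
  obtain ⟨p1, p2⟩ := P_bounds (by omega : 1 ≤ k)
  obtain ⟨r1, r2⟩ := ratio k
  rw [← hQ, ← hP] at p1 p2
  rw [← hQ, ← hR] at r1 r2
  have hQ1 : 1 ≤ Q := by rw [hQ]; exact_mod_cast q_pos (Or.inl rfl) k
  have hQ2 : 0 < Q ^ 2 := by positivity
  have hR0 : 0 ≤ R := by rw [hR]; exact Nat.cast_nonneg _
  have hT0 : 0 ≤ T := by rw [hT]; exact Nat.cast_nonneg _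
  have r1' : 2 * Q ^ 2 ≤ R := by
    have h0 : ((k : ℝ) + 1) * (2 * Q ^ 2) ≤ (k + 1) * R := by linarith
    exact le_of_mul_le_mul_left h0 (by positivity)
  have r2' : R ≤ 4 * Q ^ 2 := by
    have h0 : ((k : ℝ) + 1) * R ≤ (k + 1) * (4 * Q ^ 2) := by linarith
    exact le_of_mul_le_mul_left h0 (by positivity)
  have heq : 2 * ((d' : ℝ) * T) = 3 * ((d : ℝ) ^ 2 * (P * Q)) := by
    have e1 : (a + b + 1) * (b - a) = 2 * k0 := hk0
    rw [dU, dV] at e1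
    have e2 : 2 * (3 * k0) = 3 * (d * (conv 1 (k + 1)).1 * (d * (conv 1 (k + 1)).2)) := by rw [e1]; ring
    rw [dY] at e2
    have e3 : 2 * ((d' : ℝ) * ((conv 2 (j + 1)).2 : ℝ)) = 3 * ((d : ℝ) * ((conv 1 (k + 1)).1 : ℝ) * (d * ((conv 1 (k + 1)).2 : ℝ))) := by
      exact_mod_cast e2
    rw [hT, hP, hQ, e3]; ring
  have PQ1 : 2.15 * Q ^ 2 ≤ P * Q := by
    have := mul_le_mul_of_nonneg_right p1 (by linarith : 0 ≤ Q)
    linarith
  have PQ2 : P * Q ≤ 2.18 * Q ^ 2 := by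
    have := mul_le_mul_of_nonneg_right p2 (by linarith : 0 ≤ Q)
    linarith
  have hk3R : (4 : ℝ) ≤ k := by exact_mod_cast hk3
  have hd'R : (1 : ℝ) ≤ d' := by exact_mod_cast hd'
  rcases Nat.lt_or_ge (2 * k + 1) j with hj | hj
  · -- `j + 1 ≥ 2 k + 3`
    have t1 : (4 * (k : ℝ) + 5) * R ≤ T := by
      have hm := q_mono (Or.inr rfl : (2 : ℕ) = 1 ∨ (2 : ℕ) = 2) (by omega : 2 * k + 3 ≤ j + 1)
      have q3 : quot 2 (2 * k + 2) = 4 * k + 5 := by unfold quot; omega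
      have e0 : (4 * k + 5) * (conv 2 (2 * k + 2)).2 ≤ (conv 2 (2 * k + 3)).2 := by
        show (4 * k + 5) * (conv 2 (2 * k + 2)).2 ≤ quot 2 (2 * k + 1 + 1) * (conv 2 (2 * k + 1 + 1)).2 + (conv 2 (2 * k + 1)).2
        rw [show 2 * k + 1 + 1 = 2 * k + 2 from rfl, q3]
        omega
      rw [hR, hT]
      exact_mod_cast le_trans e0 hm
    have t2 : 4 * (4 * (k : ℝ) + 5) * Q ^ 2 ≤ 2 * (d' * T) := by
      have u1 : (4 * (k : ℝ) + 5) * (2 * Q ^ 2) ≤ T := le_trans (mul_le_mul_of_nonneg_left r1' (by positivity)) t1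
      have u2 : T ≤ d' * T := by
        have := mul_le_mul_of_nonneg_right hd'R hT0
        linarith
      linarith
    have t3 : 3 * ((d : ℝ) ^ 2 * (P * Q)) ≤ 1.3734 * (4 * (k : ℝ) + 7) * Q ^ 2 := by
      have u1 : (d : ℝ) ^ 2 * (P * Q) ≤ (21 / 100 * (4 * (k : ℝ) + 7)) * (2.18 * Q ^ 2) :=
        mul_le_mul b2 PQ2 (by nlinarith) (by positivity)
      norm_num at u1 ⊢
      linarith
    rw [heq] at t2
    have t4 := t2.trans t3
    have t5 := le_of_mul_le_mul_right t4 hQ2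
    norm_num at t5
    linarith
  · -- `j + 1 ≤ 2 k + 2`
    have t1 : T ≤ R := by
      have hm := q_mono (Or.inr rfl : (2 : ℕ) = 1 ∨ (2 : ℕ) = 2) (by omega : j + 1 ≤ 2 * k + 2)
      rw [hR, hT]
      exact_mod_cast hm
    have t2 : 2 * ((d' : ℝ) * T) ≤ 8 * d' * Q ^ 2 := by
      have u1 : (d' : ℝ) * T ≤ d' * (4 * Q ^ 2) := mul_le_mul_of_nonneg_left (t1.trans r2') (by linarith)
      linarith
    have t3 : 1.2255 * (4 * (k : ℝ) + 6) * Q ^ 2 ≤ 3 * ((d : ℝ) ^ 2 * (P * Q)) := by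
      have u1 : (19 / 100 * (4 * (k : ℝ) + 6)) * (2.15 * Q ^ 2) ≤ (d : ℝ) ^ 2 * (P * Q) :=
        mul_le_mul b1 PQ1 (by positivity) (by positivity)
      norm_num at u1 ⊢
      linarith
    rw [heq] at t2
    have t4 := t3.trans t2
    have t5 := le_of_mul_le_mul_right t4 hQ2
    have hjk : (j : ℝ) ≤ 2 * k + 1 := by exact_mod_cast hj
    have t6 : (1.2255 * (4 * (k : ℝ) + 6)) ^ 2 ≤ (8 * d') ^ 2 := pow_le_pow_left₀ (by positivity) t5 2
    norm_num at t6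
    nlinarith

end Pool.Agent.VO6
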