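import Pool.Agent.VO5.Small

/-!
Two tables computed in the kernel (helper5): all members with `b < 149`, and the blocks of the harmonic series with `1 ≤ a < 55`.
-/

namespace Pool.Agent.VO6

open Pool.Agent.P30.UnitInterval Pool.Agent.VO5

/-- the six members with maximum below `149`, as pairs `(b, k)` with `k = a` the minimum minus one -/
def six (b k : ℕ) : Bool :=
  (b == 1 && k == 0) || (b == 2 && k == 1) || (b == 2 && k == 0) || (b == 3 && k == 1) || (b == 3 && k == 0) ||
    (b == 6 && k == 2)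

/-- walk down from `b`: `r` is the number in `(0, L]` congruent to `- ∑ L / n` modulo `L` over the numbers passed -/
def walk2 (L b : ℕ) : ℕ → ℕ → Bool
  | 0, _ => true
  | (k + 1), r =>
    (if (if L / (k + 1) < r then r - L / (k + 1) else r + L - L / (k + 1)) ∣ L then six b k else true) &&
      walk2 L b k (if L / (k + 1) < r then r - L / (k + 1) else r + L - L / (k + 1))

def all2 (L : ℕ) : ℕ → Bool
  | 0 => true
  | (b + 1) => walk2 L b b L && all2 L b

set_option maxRecDepth 100000 in
theorem all2_true : all2 L 149 = true := by decide +kernel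

theorem all2_spec {L : ℕ} : ∀ {n : ℕ}, all2 L n = true → ∀ b < n, walk2 L b b L = true
  | 0, _, b, hb => absurd hb (by omega)
  | (n + 1), h, b, hb => by
    simp only [all2, Bool.and_eq_true] at h
    rcases Nat.lt_succ_iff_lt_or_eq.1 hb with h1 | h1
    · exact all2_spec h.2 b h1
    · rw [h1]; exact h.1

theorem walk2_spec {L b : ℕ} : ∀ {k r t : ℕ}, k ≤ b → walk2 L b k r = true → 0 < r → r ≤ L →
    r + ∑ n ∈ Finset.Ioc k b, L / n = L * t →
    ∀ a < k, ∀ r' t', 0 < r' → r' ≤ L → r' + ∑ n ∈ Finset.Ioc a b, L / n = L * t' → r' ∣ L → six b a = true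
  | 0, _, _, _, _, _, _, _, a, ha, _, _, _, _, _, _ => absurd ha (by omega)
  | (k + 1), r, t, hk, hw, hr0, hrL, hr, a, ha, r', t', h0, h1, hr', hd => by
    have hs : ∑ n ∈ Finset.Ioc k b, L / n = L / (k + 1) + ∑ n ∈ Finset.Ioc (k + 1) b, L / n :=
      sum_step (f := fun n => L / n) (by omega : k < b)
    have hle : L / (k + 1) ≤ L := Nat.div_le_self _ _
    rw [walk2, Bool.and_eq_true] at hw
    obtain ⟨w1, w2⟩ := hw
    obtain ⟨R, hR⟩ : ∃ R, R = (if L / (k + 1) < r then r - L / (k + 1) else r + L - L / (k + 1)) := ⟨_, rfl⟩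
    rw [← hR] at w1 w2
    have hRR : 0 < R ∧ R ≤ L ∧ ∃ u, R + ∑ n ∈ Finset.Ioc k b, L / n = L * u := by
      clear w1 w2 hr'
      obtain ⟨q, hq⟩ : ∃ q, q = L / (k + 1) := ⟨_, rfl⟩
      obtain ⟨T, hT⟩ : ∃ T, T = L * t := ⟨_, rfl⟩
      rw [← hT] at hr
      rw [← hq] at hle hs hR
      by_cases hc : q < r
      · rw [if_pos hc] at hR
        refine ⟨by omega, by omega, t, ?_⟩
        rw [hs, hR, ← hT]
        omega
      · rw [if_neg hc] at hR
        refine ⟨by omega, by omega, t + 1, ?_⟩
        rw [mul_add, mul_one, hs, hR, ← hT]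
        omega
    obtain ⟨R1, R2, u, R3⟩ := hRR
    rcases Nat.lt_succ_iff_lt_or_eq.1 ha with h2 | h2
    · exact walk2_spec (by omega) w2 R1 R2 R3 a h2 r' t' h0 h1 hr' hd
    · subst h2
      have he : R = r' := by
        rcases Nat.lt_trichotomy u t' with h | h | h
        · have : L * u + L ≤ L * t' := by
            calc L * u + L = L * (u + 1) := by ring
              _ ≤ L * t' := Nat.mul_le_mul_left _ h
          omega
        · subst h
          omega
        · have : L * t' + L ≤ L * u := by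
            calc L * t' + L = L * (t' + 1) := by ring
              _ ≤ L * u := Nat.mul_le_mul_left _ h
          omega
      rw [he, if_pos hd] at w1
      exact w1

theorem six_of {a b m s : ℕ} (h : Sol a b m s) (hb : b < 149) : six b a = true := by
  have hm := h.hm
  have hab := h.hab
  have hL : (0 : ℚ) < (L : ℚ) := by exact_mod_cast L_pos
  have hm0 : (0 : ℚ) < m := by exact_mod_cast hm
  have hsum : ((∑ n ∈ Finset.Ioc a b, L / n : ℕ) : ℚ) = L * hs a b := by
    unfold hs
    rw [Finset.mul_sum, Nat.cast_sum]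
    apply Finset.sum_congr rfl
    intro n hn
    rw [Finset.mem_Ioc] at hn
    have hd := dvdL n (by omega) (by omega)
    rw [Nat.cast_div hd (by exact_mod_cast (by omega : n ≠ 0))]
    ring
  have heq := h.eq
  obtain ⟨S, hS⟩ : ∃ S : ℕ, S = ∑ n ∈ Finset.Ioc a b, L / n := ⟨_, rfl⟩
  rw [← hS] at hsum
  have h1 : (S : ℚ) + L / m = L * s := by
    rw [hsum]
    have : hs a b = s - 1 / m := by linarith
    rw [this]; ring
  have h2 : (S : ℚ) < L * s := by
    have : 0 < (L : ℚ) / m := div_pos hL hm0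
    linarith
  have h3 : S < L * s := by exact_mod_cast h2
  obtain ⟨r, hr⟩ : ∃ r, r = L * s - S := ⟨_, rfl⟩
  have r0 : 0 < r := by rw [hr]; exact Nat.sub_pos_of_lt h3
  have hrS : r + S = L * s := by rw [hr]; exact Nat.sub_add_cancel h3.le
  have h4 : r * m = L := by
    have : (r : ℚ) * m = L := by
      have e : (r : ℚ) = L * s - S := by
        have : (r : ℚ) + S = L * s := by exact_mod_cast hrS
        linarith
      rw [e]
      have : (L : ℚ) * s - S = L / m := by linarith
      rw [this]; field_simp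
    exact_mod_cast this
  have w := all2_spec all2_true b hb
  rw [hS] at hrS
  have hd : r ∣ L := ⟨m, h4.symm⟩
  have hLp := L_pos
  have hrL : r ≤ L := Nat.le_of_dvd hLp hd
  generalize L = L' at *
  have s0 : L' + ∑ n ∈ Finset.Ioc b b, L' / n = L' * 1 := by rw [Finset.Ioc_self, Finset.sum_empty, add_zero, mul_one]
  exact walk2_spec (le_refl b) w hLp (le_refl L') s0 a hab r s r0 hrL hrS hd

/-! ### the blocks with small `a` -/

/-- the least common multiple of `1, …, 170` -/
def N : ℕ := (List.range 170).foldl (fun x i => Nat.lcm x (i + 1)) 1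

/-- walk up: `S = ∑ N / n` over `a < n ≤ b`, `c = 100 (2 a + 1) ^ 4`; `f` steps remain -/
def up (N c : ℕ) : ℕ → ℕ → ℕ → Bool
  | 0, _, S => decide (N < S)
  | (f + 1), b, S =>
    (if S + N / (b + 1) ≤ N then decide (N < c * (N - (S + N / (b + 1)))) else decide (N < c * (S + N / (b + 1) - N))) &&
      up N c f (b + 1) (S + N / (b + 1))

def allUp (N : ℕ) : ℕ → Bool
  | 0 => true
  | (a + 1) => up N (100 * (2 * (a + 1) + 1) ^ 4) (2 * (a + 1) + 5) (a + 1) 0 && allUp N a

set_option maxRecDepth 100000 in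
theorem allUp_true : allUp N 54 = true := by decide +kernel

theorem allUp_spec {N : ℕ} : ∀ {n : ℕ}, allUp N n = true → ∀ a, 1 ≤ a → a ≤ n →
    up N (100 * (2 * a + 1) ^ 4) (2 * a + 5) a 0 = true
  | 0, _, a, h1, h2 => absurd h2 (by omega)
  | (n + 1), h, a, h1, h2 => by
    simp only [allUp, Bool.and_eq_true] at h
    rcases Nat.lt_or_eq_of_le h2 with h3 | h3
    · exact allUp_spec h.2 a h1 (by omega)
    · rw [h3]; exact h.1

/-- the gap -/
def Far (N c S : ℕ) : Prop := (S ≤ N ∧ N < c * (N - S)) ∨ (N < S ∧ N < c * (S - N))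

theorem up_spec {N c a : ℕ} : ∀ {f b S : ℕ}, a ≤ b → up N c f b S = true → S = ∑ n ∈ Finset.Ioc a b, N / n →
    (∀ b', b < b' → b' ≤ b + f → Far N c (∑ n ∈ Finset.Ioc a b', N / n)) ∧ N < ∑ n ∈ Finset.Ioc a (b + f), N / n
  | 0, b, S, _, h, hS => by
    simp only [up, decide_eq_true_eq] at h
    refine ⟨fun b' h1 h2 => absurd h2 (by omega), ?_⟩
    rw [Nat.add_zero, ← hS]; exact h
  | (f + 1), b, S, hab, h, hS => by
    simp only [up, Bool.and_eq_true] at h
    obtain ⟨h1, h2⟩ := h
    have hS' : S + N / (b + 1) = ∑ n ∈ Finset.Ioc a (b + 1), N / n := by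
      rw [Finset.sum_Ioc_succ_top (by omega), ← hS]
    obtain ⟨i1, i2⟩ := up_spec (a := a) (by omega : a ≤ b + 1) h2 hS'
    constructor
    · intro b' h3 h4
      rcases Nat.lt_or_eq_of_le (Nat.succ_le_of_lt h3) with h5 | h5
      · exact i1 b' h5 (by omega)
      · have h6 : b' = b + 1 := by omega
        rw [h6, ← hS']
        by_cases hc : S + N / (b + 1) ≤ N
        · rw [if_pos hc, decide_eq_true_eq] at h1
          exact Or.inl ⟨hc, h1⟩
        · rw [if_neg hc, decide_eq_true_eq] at h1
          exact Or.inr ⟨by omega, h1⟩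
    · have e : b + (f + 1) = b + 1 + f := by omega
      rw [e]; exact i2

end Pool.Agent.VO6
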