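import Pool.Agent.VO6.Block
import Pool.Agent.VO6.Table

/-!
No block of the harmonic series is near to `1`, and two members of the set of the problem with a common end (helper5).
-/

namespace Pool.Agent.VO6

open Pool.Agent.P30.UnitInterval Pool.Agent.UCF Pool.Agent.VO5

theorem far_abs {N c S : ℕ} (hN : 0 < N) (hc : 0 < c) (h : Far N c S) : 1 / (c : ℝ) < |(S : ℝ) / N - 1| := by
  have hNR : (0 : ℝ) < N := by exact_mod_cast hN
  have hcR : (0 : ℝ) < c := by exact_mod_cast hc
  rcases h with ⟨h1, h2⟩ | ⟨h1, h2⟩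
  · have h3 : (N : ℝ) < c * ((N : ℝ) - S) := by
      have : ((N : ℕ) : ℝ) < ((c * (N - S) : ℕ) : ℝ) := by exact_mod_cast h2
      rw [Nat.cast_mul, Nat.cast_sub h1] at this
      exact this
    rw [abs_sub_comm, lt_abs]
    left
    rw [div_lt_iff₀ hcR]
    have : (1 - (S : ℝ) / N) * c = c * ((N : ℝ) - S) / N := by field_simp
    rw [this, lt_div_iff₀ hNR]
    linarith
  · have h3 : (N : ℝ) < c * ((S : ℝ) - N) := by
      have : ((N : ℕ) : ℝ) < ((c * (S - N) : ℕ) : ℝ) := by exact_mod_cast h2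
      rw [Nat.cast_mul, Nat.cast_sub h1.le] at this
      exact this
    rw [lt_abs]
    left
    rw [div_lt_iff₀ hcR]
    have : ((S : ℝ) / N - 1) * c = c * ((S : ℝ) - N) / N := by field_simp
    rw [this, lt_div_iff₀ hNR]
    linarith

theorem dvdN : ∀ n, 1 ≤ n → n ≤ 170 → n ∣ N := by
  have h : ∀ n ≤ 170, 1 ≤ n → n ∣ N := by decide +kernel
  intro n h1 h2
  exact h n h2 h1

theorem N_pos : 0 < N := by decide +kernel

theorem sum_real {a b : ℕ} (hb : b ≤ 170) : ((∑ n ∈ Finset.Ioc a b, N / n : ℕ) : ℝ) / N = ((hs a b : ℚ) : ℝ) := by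
  have hN : (0 : ℝ) < (N : ℝ) := by exact_mod_cast N_pos
  have hsum : ((∑ n ∈ Finset.Ioc a b, N / n : ℕ) : ℝ) = N * ((hs a b : ℚ) : ℝ) := by
    unfold hs
    push_cast
    rw [Finset.mul_sum]
    apply Finset.sum_congr rfl
    intro n hn
    rw [Finset.mem_Ioc] at hn
    have hd := dvdN n (by omega) (by omega)
    rw [Nat.cast_div hd (by exact_mod_cast (by omega : n ≠ 0))]
    ring
  rw [hsum]
  field_simp

/-- no block is near to `1` -/
theorem no_block {a b : ℕ} (ha : 1 ≤ a) (hab : a < b) :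
    1 / (100 * (2 * (a : ℝ) + 1) ^ 4) < |((hs a b : ℚ) : ℝ) - 1| := by
  rcases Nat.lt_or_ge a 55 with h | h
  · have hu := allUp_spec allUp_true a ha (by omega)
    obtain ⟨u1, u2⟩ := up_spec (le_refl a) hu (by rw [Finset.Ioc_self, Finset.sum_empty])
    have hc : 0 < 100 * (2 * a + 1) ^ 4 := by positivity
    have hcast : ((100 * (2 * a + 1) ^ 4 : ℕ) : ℝ) = 100 * (2 * (a : ℝ) + 1) ^ 4 := by push_cast; ring
    rcases Nat.lt_or_ge (a + (2 * a + 5)) b with h1 | h1
    · have f1 := far_abs N_pos hc (u1 (a + (2 * a + 5)) (by omega) (le_refl _))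
      rw [hcast, sum_real (by omega)] at f1
      have f2 : (1 : ℝ) < ((hs a (a + (2 * a + 5)) : ℚ) : ℝ) := by
        rw [← sum_real (by omega : a + (2 * a + 5) ≤ 170), lt_div_iff₀ (by exact_mod_cast N_pos), one_mul]
        exact_mod_cast u2
      have f3 : hs a (a + (2 * a + 5)) ≤ hs a b := by
        rw [← hs_add (by omega : a ≤ a + (2 * a + 5)) h1.le]
        have := hs_nonneg (a + (2 * a + 5)) b
        linarith
      have f4 : ((hs a (a + (2 * a + 5)) : ℚ) : ℝ) ≤ ((hs a b : ℚ) : ℝ) := by exact_mod_cast f3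
      rw [abs_of_pos (by linarith)] at f1
      rw [abs_of_pos (by linarith)]
      linarith
    · have f1 := far_abs N_pos hc (u1 b hab h1)
      rw [hcast, sum_real (by omega)] at f1
      exact f1
  · by_contra hc
    push Not at hc
    exact no_large hc h hab

/-- the values of the six small members -/
theorem val_six {a b m s : ℕ} (h : Sol a b m s) (hb : b < 149) :
    (a = 0 ∧ b ≤ 3 ∧ s = 2) ∨ (a = 1 ∧ b ≤ 3 ∧ s = 1) ∨ (a = 2 ∧ b = 6 ∧ s = 1) := by
  have h6 := six_of h hb
  have heq := h.eq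
  have hm0 : (0 : ℚ) < m := by exact_mod_cast h.hm
  have hm1 : (1 : ℚ) / m ≤ 1 := by
    rw [div_le_one hm0]
    exact_mod_cast h.hm
  have hm2 : (0 : ℚ) < 1 / m := by positivity
  have key : ∀ (x : ℚ) (t : ℕ), hs a b = x → (t : ℚ) - 1 ≤ x → x < t → s = t := by
    intro x t e1 e2 e3
    rw [e1] at heq
    have g1 : (s : ℚ) ≤ x + 1 := by linarith
    have g2 : x < s := by linarith
    have g3 : (s : ℚ) < t + 1 := by linarith
    have g4 : (t : ℚ) < s + 1 := by linarith
    have g5 : s < t + 1 := by exact_mod_cast g3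
    have g6 : t < s + 1 := by exact_mod_cast g4
    omega
  simp only [six, Bool.or_eq_true, Bool.and_eq_true, beq_iff_eq] at h6
  rcases h6 with ((((⟨rfl, rfl⟩ | ⟨rfl, rfl⟩) | ⟨rfl, rfl⟩) | ⟨rfl, rfl⟩) | ⟨rfl, rfl⟩) | ⟨rfl, rfl⟩
  · refine Or.inl ⟨rfl, by norm_num, key 1 2 ?_ (by norm_num) (by norm_num)⟩
    unfold hs
    rw [show Finset.Ioc 0 1 = {1} from by decide]; norm_num
  · refine Or.inr (Or.inl ⟨rfl, by norm_num, key (1 / 2) 1 ?_ (by norm_num) (by norm_num)⟩)
    unfold hs
    rw [show Finset.Ioc 1 2 = {2} from by decide]; norm_num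
  · refine Or.inl ⟨rfl, by norm_num, key (3 / 2) 2 ?_ (by norm_num) (by norm_num)⟩
    unfold hs
    rw [show Finset.Ioc 0 2 = {1, 2} from by decide]; norm_num
  · refine Or.inr (Or.inl ⟨rfl, by norm_num, key (5 / 6) 1 ?_ (by norm_num) (by norm_num)⟩)
    unfold hs
    rw [show Finset.Ioc 1 3 = {2, 3} from by decide]; norm_num
  · refine Or.inl ⟨rfl, by norm_num, key (11 / 6) 2 ?_ (by norm_num) (by norm_num)⟩
    unfold hs
    rw [show Finset.Ioc 0 3 = {1, 2, 3} from by decide]; norm_num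
  · refine Or.inr (Or.inr ⟨rfl, rfl, key (19 / 20) 1 ?_ (by norm_num) (by norm_num)⟩)
    unfold hs
    rw [show Finset.Ioc 2 6 = {3, 4, 5, 6} from by decide]; norm_num

theorem real_eq' {a b m s : ℕ} (h : Sol a b m s) : ((hs a b : ℚ) : ℝ) = s - 1 / m := by
  have h4 := h.eq
  have h5 : hs a b = (s : ℚ) - 1 / m := by linarith
  rw [h5]
  push_cast
  rfl

theorem inv_small {a b m s : ℕ} (h : Sol a b m s) (hb : 149 ≤ b) {c : ℕ} (hc : c ≤ b) :
    1 / (m : ℝ) ≤ 1 / (100 * (2 * (c : ℝ) + 1) ^ 4) := by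
  have hm := m_large' h hb
  apply one_div_le_one_div_of_le (by positivity)
  have h1 : (10 : ℝ) ^ 4 * (2 * (b : ℝ) + 1) ^ 4 ≤ m := by exact_mod_cast hm
  have h2 : (2 * (c : ℝ) + 1) ^ 4 ≤ (2 * (b : ℝ) + 1) ^ 4 := by
    have : (c : ℝ) ≤ b := by exact_mod_cast hc
    exact pow_le_pow_left₀ (by positivity) (by linarith) 4
  have h3 : 0 < (2 * (c : ℝ) + 1) ^ 4 := by positivity
  linarith

theorem two_small {x y t : ℝ} (hx : 0 < x) (hy : 0 < y) (hxt : x ≤ t) (hyt : y ≤ t) : |x - y| ≤ t := by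
  rw [abs_le]
  constructor <;> linarith

/-- two members with the same minimum -/
theorem pair_min {a b m s b' m' : ℕ} (h : Sol a b m s) (h' : Sol a b' m' (s + 1)) : False := by
  have e := real_eq' h
  have e' := real_eq' h'
  push_cast at e'
  have hm0 : (0 : ℝ) < m := by exact_mod_cast h.hm
  have hm0' : (0 : ℝ) < m' := by exact_mod_cast h'.hm
  have i0 : 0 < 1 / (m : ℝ) := by positivity
  have i0' : 0 < 1 / (m' : ℝ) := by positivity
  have i1' : 1 / (m' : ℝ) ≤ 1 := by
    rw [div_le_one hm0']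
    exact_mod_cast h'.hm
  have hbb : b < b' := by
    by_contra hc
    push Not at hc
    have f : hs a b' ≤ hs a b := by
      rw [← hs_add h'.hab.le hc]
      have := hs_nonneg b' b
      linarith
    have f' : ((hs a b' : ℚ) : ℝ) ≤ ((hs a b : ℚ) : ℝ) := by exact_mod_cast f
    linarith
  rcases Nat.lt_or_ge b 149 with hb | hb
  · have v := val_six h hb
    rcases Nat.lt_or_ge b' 149 with hb' | hb'
    · have v' := val_six h' hb'
      omega
    · have hlog := hs_ge_log h'.hab.le
      have hs3 : (s : ℝ) + 1 ≤ 3 := by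
        have : s + 1 ≤ 3 := by omega
        exact_mod_cast this
      have ha2 : (a : ℝ) + 1 ≤ 3 := by
        have : a + 1 ≤ 3 := by omega
        exact_mod_cast this
      have hb2 : (150 : ℝ) ≤ (b' : ℝ) + 1 := by
        have : 150 ≤ b' + 1 := by omega
        exact_mod_cast this
      have ha0 : (0 : ℝ) < (a : ℝ) + 1 := by positivity
      have hb0 : (0 : ℝ) < (b' : ℝ) + 1 := by positivity
      have h3 : Real.log (((b' : ℝ) + 1) / ((a : ℝ) + 1)) < 3 := by
        rw [Real.log_div hb0.ne' ha0.ne']; linarith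
      rw [Real.log_lt_iff_lt_exp (by positivity), div_lt_iff₀ ha0] at h3
      have he := Real.exp_one_lt_d9
      have he3 : Real.exp 3 = Real.exp 1 ^ 3 := by rw [← Real.exp_nat_mul]; norm_num
      have he4 : Real.exp 1 ^ 3 ≤ 3 ^ 3 := pow_le_pow_left₀ (Real.exp_pos 1).le (by linarith) 3
      have he5 : Real.exp 3 * ((a : ℝ) + 1) ≤ 27 * 3 := by
        rw [he3]
        rw [show (3 : ℝ) ^ 3 = 27 from by norm_num] at he4
        exact mul_le_mul he4 ha2 ha0.le (by norm_num)
      linarith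
  · have hd : ((hs b b' : ℚ) : ℝ) - 1 = 1 / (m : ℝ) - 1 / (m' : ℝ) := by
      have f : hs a b + hs b b' = hs a b' := hs_add h.hab.le hbb.le
      have f' : ((hs a b : ℚ) : ℝ) + ((hs b b' : ℚ) : ℝ) = ((hs a b' : ℚ) : ℝ) := by exact_mod_cast f
      linarith
    have hnb := no_block (by omega : 1 ≤ b) hbb
    rw [hd] at hnb
    have j1 := inv_small h hb (le_refl b)
    have j2 := inv_small h' (by omega) hbb.le
    have := two_small i0 i0' j1 j2
    linarith

/-- two members with the same maximum -/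
theorem pair_max {a a' b m s m' : ℕ} (h : Sol a b m s) (h' : Sol a' b m' (s + 1)) : a' = 0 ∧ a = 1 ∧ m = m' := by
  have e := real_eq' h
  have e' := real_eq' h'
  push_cast at e'
  have hm0 : (0 : ℝ) < m := by exact_mod_cast h.hm
  have hm0' : (0 : ℝ) < m' := by exact_mod_cast h'.hm
  have i0 : 0 < 1 / (m : ℝ) := by positivity
  have i0' : 0 < 1 / (m' : ℝ) := by positivity
  have i1' : 1 / (m' : ℝ) ≤ 1 := by
    rw [div_le_one hm0']
    exact_mod_cast h'.hm
  have haa : a' < a := by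
    by_contra hc
    push Not at hc
    have f : hs a' b ≤ hs a b := by
      rw [← hs_add hc h'.hab.le]
      have := hs_nonneg a a'
      linarith
    have f' : ((hs a' b : ℚ) : ℝ) ≤ ((hs a b : ℚ) : ℝ) := by exact_mod_cast f
    linarith
  have hd : ((hs a' a : ℚ) : ℝ) - 1 = 1 / (m : ℝ) - 1 / (m' : ℝ) := by
    have f : hs a' a + hs a b = hs a' b := hs_add haa.le h.hab.le
    have f' : ((hs a' a : ℚ) : ℝ) + ((hs a b : ℚ) : ℝ) = ((hs a' b : ℚ) : ℝ) := by exact_mod_cast f
    linarith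
  have key : a' = 0 ∧ a = 1 := by
    rcases Nat.lt_or_ge b 149 with hb | hb
    · have v := val_six h hb
      have v' := val_six h' hb
      omega
    · have j1 := inv_small h hb h.hab.le
      have j2 := inv_small h' hb h.hab.le
      have k1 := inv_small h hb h'.hab.le
      have k2 := inv_small h' hb h'.hab.le
      have t := two_small i0 i0' k1 k2
      rcases Nat.eq_zero_or_pos a' with h0 | h0
      · refine ⟨h0, ?_⟩
        by_contra hne
        subst h0
        have f3 : hs 0 2 ≤ hs 0 a := by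
          rw [← hs_add (by norm_num : 0 ≤ 2) (by omega : 2 ≤ a)]
          have := hs_nonneg 2 a
          linarith
        have f4 : hs 0 2 = 3 / 2 := by
          unfold hs
          rw [show Finset.Ioc 0 2 = {1, 2} from by decide]; norm_num
        rw [f4] at f3
        have f5 : ((3 / 2 : ℚ) : ℝ) ≤ ((hs 0 a : ℚ) : ℝ) := by exact_mod_cast f3
        rw [← hd] at t
        have t2 := (abs_le.1 t).2
        norm_num at t2 f5
        linarith
      · have hnb := no_block h0 haa
        rw [hd] at hnb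
        linarith
  obtain ⟨rfl, rfl⟩ := key
  refine ⟨rfl, rfl, ?_⟩
  have f1 : hs 0 1 = 1 := by
    unfold hs
    rw [show Finset.Ioc 0 1 = {1} from by decide]; norm_num
  rw [f1] at hd
  have h2 : 1 / (m : ℝ) = 1 / (m' : ℝ) := by push_cast at hd; linarith
  have h3 : (m : ℝ) = m' := by
    rw [one_div, one_div] at h2
    exact inv_injective h2
  exact_mod_cast h3

end Pool.Agent.VO6
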